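import Pool.Agent.H86.RG.Targets2

/-! Board reg, row E6CAC (MP_2697e3_an): Caccioppoli's inequality at small scales. -/

set_option autoImplicit false

namespace Pool.Agent.H59.RG6

open MeasureTheory Metric Set Filter Topology Pool.Agent.H87.SN Pool.Agent.H86.RG
open scoped ContDiff RealInnerProductSpace ENNReal

noncomputable section

theorem vol_ball {n : ℕ} (x : E n) {r : ℝ} (hr : 0 < r) :
    volume.real (ball x r) = r ^ n * volume.real (ball (0 : E n) 1) := by
  rw [measureReal_def, measureReal_def, Measure.addHaar_ball_of_pos _ _ hr, ENNReal.toReal_mul,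
    ENNReal.toReal_ofReal (by positivity), finrank_euclideanSpace_fin]

theorem dd_zero {n : ℕ} {η : E n → ℝ} {x : E n} (hx : x ∉ tsupport η) (i : Fin n) :
    dd i η x = 0 := by
  have h : x ∉ tsupport (fderiv ℝ η) := fun h => hx (tsupport_fderiv_subset ℝ h)
  unfold dd
  rw [image_eq_zero_of_notMem_tsupport h]
  rfl

theorem sol_mono {n m : ℕ} {U V : Set (E n)} {u : E n → E m} {D : Fin m → E n → E n}
    {f : E n → E m} (h : V ⊆ U) (hs : Sol U u D f) : Sol V u D f where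
  iu := fun a => (hs.iu a).mono_set h
  iD := fun a => (hs.iD a).mono_measure (Measure.restrict_mono h le_rfl)
  iF := fun a => (hs.iF a).mono_set h
  gr := fun a ψ hψ => hs.gr a ψ ⟨hψ.1, hψ.2.1, hψ.2.2.trans h⟩
  eq := fun a ψ hψ => hs.eq a ψ ⟨hψ.1, hψ.2.1, hψ.2.2.trans h⟩

theorem sq_int {n m : ℕ} {U : Set (E n)} {u : E n → E m} {D : Fin m → E n → E n}
    {f : E n → E m} (hs : Sol U u D f) : IntegrableOn (fun y => ∑ a, ‖D a y‖ ^ 2) U := by
  refine integrable_finsetSum _ fun a _ => ?_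
  exact (memLp_two_iff_integrable_sq_norm (hs.iD a).1).1 (hs.iD a)

theorem pf_CAC (hCTF : T_CTF) (hCG2 : T_CG2) : T_CAC := by
  intro n m u D f x₀ R K C θ hn hR hθ hθ1 hS hf hu
  obtain ⟨C1, hC1⟩ := hCTF n
  obtain ⟨K', hK'⟩ : ∃ K' : ℝ, K' = max K 0 := ⟨_, rfl⟩
  obtain ⟨Cm, hCm⟩ : ∃ Cm : ℝ, Cm = max C 0 := ⟨_, rfl⟩
  have hK0 : 0 ≤ K' := by rw [hK']; exact le_max_right _ _
  have hKK : K ≤ K' := by rw [hK']; exact le_max_left _ _
  have hCm0 : 0 ≤ Cm := by rw [hCm]; exact le_max_right _ _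
  have hCC : C ≤ Cm := by rw [hCm]; exact le_max_left _ _
  obtain ⟨q, hq⟩ : ∃ q : ℝ, q = 1 / (4 * (K' * Cm + 1)) := ⟨_, rfl⟩
  have hq0 : 0 < q := by rw [hq]; positivity
  obtain ⟨s, hs⟩ : ∃ s : ℝ, s = q ^ (1 / θ) := ⟨_, rfl⟩
  have hs0 : 0 < s := by rw [hs]; exact Real.rpow_pos_of_pos hq0 _
  have hsθ : s ^ θ = q := by
    rw [hs, ← Real.rpow_mul hq0.le, one_div, inv_mul_cancel₀ hθ.ne', Real.rpow_one]
  obtain ⟨vo, hvo⟩ : ∃ vo : ℝ, vo = volume.real (ball (0 : E n) 1) := ⟨_, rfl⟩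
  have hvo0 : 0 ≤ vo := by rw [hvo]; exact measureReal_nonneg
  refine ⟨8 * (Cm * 3 ^ θ) ^ 2 * (n * C1 ^ 2 * 2 ^ n * vo), min (R / 3) (s / 3), ?_, ?_, ?_⟩
  · exact lt_min (by positivity) (by positivity)
  · exact (min_le_left _ _).trans (by linarith)
  intro x hx r hr hrr
  have hr1 : 3 * r ≤ R := by
    have := hrr.trans (min_le_left _ _)
    linarith
  have hr2 : 3 * r ≤ s := by
    have := hrr.trans (min_le_right _ _)
    linarith
  have hxx : ‖x - x₀‖ < R := by rwa [mem_ball, dist_eq_norm] at hx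
  have hB : ball x (3 * r) ⊆ ball x₀ (2 * R) := ball_subset_ball' (by
    rw [dist_eq_norm]
    linarith)
  have hxB : x ∈ ball x₀ (2 * R) := ball_subset_ball (by linarith) hx
  have hS' := sol_mono hB hS
  obtain ⟨o, ho⟩ : ∃ o : ℝ, o = Cm * (3 * r) ^ θ := ⟨_, rfl⟩
  have hf' : ∀ᵐ y ∂(volume.restrict (ball x (3 * r))), ‖f y‖ ≤ K' * ∑ a, ‖D a y‖ ^ 2 := by
    filter_upwards [ae_mono (Measure.restrict_mono hB le_rfl) hf] with y hy
    refine hy.trans ?_
    gcongr
  have hKo : K' * o ≤ 1 / 4 := by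
    have h1 : (3 * r) ^ θ ≤ q := by
      rw [← hsθ]
      exact Real.rpow_le_rpow (by positivity) hr2 hθ.le
    calc K' * o = (K' * Cm) * (3 * r) ^ θ := by rw [ho]; ring
      _ ≤ (K' * Cm) * q := by gcongr
      _ ≤ 1 / 4 := by
        rw [hq, mul_one_div, div_le_div_iff₀ (by positivity) (by norm_num)]
        nlinarith [mul_nonneg hK0 hCm0]
  have hbd : ∀ y ∈ ball x (3 * r), ‖u y - u x‖ ≤ o := by
    intro y hy
    refine (hu y (hB hy) x hxB).trans ?_
    rw [mem_ball, dist_eq_norm] at hy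
    rw [ho]
    have h1 : ‖y - x‖ ^ θ ≤ (3 * r) ^ θ := Real.rpow_le_rpow (norm_nonneg _) hy.le hθ.le
    calc C * ‖y - x‖ ^ θ ≤ Cm * ‖y - x‖ ^ θ := by gcongr
      _ ≤ Cm * (3 * r) ^ θ := by gcongr
  obtain ⟨η, hηd, hηs, hη01, hη1, hηb⟩ := hC1 x r hr
  have hηs2 : tsupport η ⊆ ball x (2 * r) := hηs.trans (closedBall_subset_ball (by linarith))
  have hηc : HasCompactSupport η :=
    (isCompact_closedBall x (3 / 2 * r)).of_isClosed_subset (isClosed_tsupport _) hηs
  have hmain := hCG2 n m u D f x r K' o (u x) η hn hr hK0 hKo hS' hf' hbd ⟨hηd, hηc, hηs2⟩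
    fun y => (hη01 y).1
  -- the left side
  have hsq := sq_int hS'
  have hint : Integrable fun y => η y ^ 2 * ∑ a, ‖D a y‖ ^ 2 := by
    have hsub : ball x (2 * r) ⊆ ball x (3 * r) := ball_subset_ball (by linarith)
    rw [← integrableOn_iff_integrable_of_support_subset (s := ball x (3 * r))]
    · refine hsq.bdd_mul (c := 1) (hηd.continuous.pow 2).aestronglyMeasurable
        (Eventually.of_forall fun y => ?_)
      rw [Real.norm_eq_abs, abs_of_nonneg (by positivity)]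
      exact pow_le_one₀ (hη01 y).1 (hη01 y).2
    · intro y hy
      by_contra hcon
      apply hy
      have h1 : η y = 0 := image_eq_zero_of_notMem_tsupport fun h => hcon (hsub (hηs2 h))
      simp [h1]
  have hleft : ∫ y in ball x r, ∑ a, ‖D a y‖ ^ 2 ≤ ∫ y, η y ^ 2 * ∑ a, ‖D a y‖ ^ 2 := by
    have h1 : ∫ y in ball x r, ∑ a, ‖D a y‖ ^ 2 =
        ∫ y in ball x r, η y ^ 2 * ∑ a, ‖D a y‖ ^ 2 := by
      refine setIntegral_congr_fun measurableSet_ball fun y hy => ?_
      show _ = η y ^ 2 * _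
      rw [hη1 y (ball_subset_closedBall hy), one_pow, one_mul]
    rw [h1]
    exact setIntegral_le_integral hint (Eventually.of_forall fun y => by positivity)
  -- the right side
  have hright : ∫ y, ∑ i, dd i η y ^ 2 ≤ n * (C1 / r) ^ 2 * ((2 * r) ^ n * vo) := by
    have hz : ∀ y, y ∉ ball x (2 * r) → ∑ i, dd i η y ^ 2 = 0 := by
      intro y hy
      refine Finset.sum_eq_zero fun i _ => ?_
      rw [dd_zero (fun h => hy (hηs2 h)) i]
      simp
    rw [← setIntegral_eq_integral_of_forall_compl_eq_zero hz]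
    have hbd2 : ∀ y, ∑ i, dd i η y ^ 2 ≤ n * (C1 / r) ^ 2 := by
      intro y
      calc ∑ i, dd i η y ^ 2 ≤ ∑ _i : Fin n, (C1 / r) ^ 2 := by
            refine Finset.sum_le_sum fun i _ => ?_
            exact sq_le_sq.2 ((hηb i y).trans (le_abs_self _))
        _ = n * (C1 / r) ^ 2 := by simp
    have hvt : volume (ball x (2 * r)) ≠ ⊤ := measure_ball_lt_top.ne
    have hcont : Continuous fun y => ∑ i, dd i η y ^ 2 := by
      refine continuous_finsetSum _ fun i _ => ?_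
      exact (((hηd.continuous_fderiv (by simp)).clm_apply continuous_const).pow 2)
    have hi : IntegrableOn (fun y => ∑ i, dd i η y ^ 2) (ball x (2 * r)) := by
      refine Measure.integrableOn_of_bounded (M := n * (C1 / r) ^ 2) hvt
        hcont.aestronglyMeasurable (Eventually.of_forall fun y => ?_)
      rw [Real.norm_eq_abs, abs_of_nonneg (Finset.sum_nonneg fun i _ => by positivity)]
      exact hbd2 y
    calc ∫ y in ball x (2 * r), ∑ i, dd i η y ^ 2
        ≤ ∫ _y in ball x (2 * r), n * (C1 / r) ^ 2 :=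
          setIntegral_mono hi (integrableOn_const hvt) hbd2
      _ = n * (C1 / r) ^ 2 * ((2 * r) ^ n * vo) := by
          rw [setIntegral_const, smul_eq_mul, vol_ball x (by positivity), hvo]
          ring
  refine (hleft.trans hmain).trans ?_
  have ho0 : 0 ≤ 8 * o ^ 2 := by positivity
  refine (mul_le_mul_of_nonneg_left hright ho0).trans (le_of_eq ?_)
  have hpow : r ^ ((n : ℝ) - 2 + 2 * θ) = r ^ n * (r ^ 2)⁻¹ * (r ^ θ) ^ 2 := by
    have h4 : r ^ (2 : ℝ) = r ^ 2 := by exact_mod_cast Real.rpow_natCast r 2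
    have h5 : (r ^ θ) ^ (2 : ℝ) = (r ^ θ) ^ 2 := by exact_mod_cast Real.rpow_natCast (r ^ θ) 2
    rw [Real.rpow_add hr, Real.rpow_sub hr, Real.rpow_natCast, mul_comm (2 : ℝ) θ,
      Real.rpow_mul hr.le, h4, h5, div_eq_mul_inv]
  have h3 : (3 * r) ^ θ = 3 ^ θ * r ^ θ := Real.mul_rpow (by norm_num) hr.le
  rw [hpow, ho, h3, mul_pow 2 r n, div_pow]
  ring

end

end Pool.Agent.H59.RG6
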