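import Pool.Agent.H86.RG.Targets2

/-! Board reg, row E6MOR (MP_2697e3_an): Morrey decay of the gradient gives a Hölder continuous
representative. -/

set_option autoImplicit false

namespace Pool.Agent.H59.RG6

open MeasureTheory Metric Set Filter Topology Pool.Agent.H87.SN Pool.Agent.H86.RG
open scoped ContDiff RealInnerProductSpace ENNReal

noncomputable section

theorem ker_bdd {n : ℕ} {k : E n → ℝ} (hk : Continuous k) (hz : ∀ x, 1 ≤ ‖x‖ → k x = 0) :
    ∃ M : ℝ, 0 ≤ M ∧ ∀ x, |k x| ≤ M := by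
  have hc : HasCompactSupport k := HasCompactSupport.intro (isCompact_closedBall (0 : E n) 1)
    fun x hx => hz x (by
      rw [mem_closedBall, dist_zero_right, not_le] at hx
      exact hx.le)
  obtain ⟨M, hM⟩ := hc.exists_bound_of_continuous hk
  exact ⟨M, (norm_nonneg _).trans (hM 0), hM⟩

theorem fam_bdd {n : ℕ} {ι : Type} [Fintype ι] {k : ι → E n → ℝ} (hk : ∀ i, Continuous (k i))
    (hz : ∀ i x, 1 ≤ ‖x‖ → k i x = 0) : ∃ M : ℝ, 0 ≤ M ∧ ∀ i x, |k i x| ≤ M := by
  choose M hM0 hM using fun i => ker_bdd (hk i) (hz i)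
  refine ⟨∑ i, M i, Finset.sum_nonneg fun i _ => hM0 i, fun i x => (hM i x).trans ?_⟩
  exact Finset.single_le_sum (f := M) (fun i _ => hM0 i) (Finset.mem_univ i)

theorem int_comp {n : ℕ} {D : E n → E n} {U : Set (E n)} (hU : MeasurableSet U)
    (hD : IntegrableOn D U) (i : Fin n) : Integrable (U.indicator fun y => D y i) := by
  rw [integrable_indicator_iff hU]
  exact (EuclideanSpace.proj i : E n →L[ℝ] ℝ).integrable_comp hD

theorem cv_est (hDCV : T_DCV) {n : ℕ} {D : E n → E n} {x₀ : E n} {R C α : ℝ}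
    (hD : IntegrableOn D (ball x₀ (2 * R)))
    (hdec : ∀ x ∈ ball x₀ R, ∀ r : ℝ, 0 < r → r ≤ R →
      ∫ y in ball x r, ‖D y‖ ≤ C * r ^ ((n : ℝ) - 1 + α))
    {k : E n → ℝ} (hk : ContDiff ℝ ∞ k) (hz : ∀ x, 1 ≤ ‖x‖ → k x = 0) {M : ℝ}
    (hM : ∀ y, |k y| ≤ M) (i : Fin n) {x : E n} (hx : x ∈ ball x₀ R) {t : ℝ} (ht : 0 < t)
    (htR : t ≤ R) :
    |cv (dil k t) ((ball x₀ (2 * R)).indicator fun y => D y i) x| ≤ M * C * t ^ (α - 1) := by
  have hM0 : 0 ≤ M := (abs_nonneg _).trans (hM 0)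
  have hint := int_comp measurableSet_ball hD i
  have h1 := (hDCV n k _ t ht hk hz hint).2.2 M x hM
  have hB : ball x t ⊆ ball x₀ (2 * R) := ball_subset_ball' (by
    have := mem_ball.1 hx
    linarith)
  have h2 : ∫ y in ball x t, |(ball x₀ (2 * R)).indicator (fun y => D y i) y| ≤
      ∫ y in ball x t, ‖D y‖ := by
    refine integral_mono_of_nonneg (Eventually.of_forall fun y => abs_nonneg _)
      (hD.mono_set hB).norm (Eventually.of_forall fun y => ?_)
    show |(ball x₀ (2 * R)).indicator (fun y => D y i) y| ≤ ‖D y‖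
    by_cases hy : y ∈ ball x₀ (2 * R)
    · rw [indicator_of_mem hy]
      exact PiLp.norm_apply_le (D y) i
    · rw [indicator_of_notMem hy, abs_zero]
      exact norm_nonneg _
  have h3 : t ^ ((n : ℝ) - 1 + α) = t ^ n * t ^ (α - 1) := by
    rw [show (n : ℝ) - 1 + α = (n : ℝ) + (α - 1) by ring, Real.rpow_add ht, Real.rpow_natCast]
  calc |cv (dil k t) ((ball x₀ (2 * R)).indicator fun y => D y i) x|
      ≤ M * (t ^ n)⁻¹ * ∫ y in ball x t, |(ball x₀ (2 * R)).indicator (fun y => D y i) y| := h1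
    _ ≤ M * (t ^ n)⁻¹ * (C * (t ^ n * t ^ (α - 1))) := by
        refine mul_le_mul_of_nonneg_left ?_ (by positivity)
        rw [← h3]
        exact h2.trans (hdec x hx t ht htR)
    _ = M * C * t ^ (α - 1) := by
        have h4 : (t ^ n)⁻¹ * t ^ n = 1 := inv_mul_cancel₀ (by positivity)
        calc _ = M * C * t ^ (α - 1) * ((t ^ n)⁻¹ * t ^ n) := by ring
          _ = _ := by rw [h4, mul_one]

theorem pf_MOR (hKER : T_KER) (hDIL : T_DIL) (hDCV : T_DCV) (hTRC : T_TRC) (hRPG : T_RPG)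
    (hLM : T_LM) (hSM0 : T_SM0) : T_MOR := by
  intro n v D x₀ R C α θ hn hR hθ hθα hα1 hv hD hW hdec
  obtain ⟨φ, ζ, hk⟩ := hKER n hn
  have hC0 : 0 ≤ C := by
    have h1 := hdec x₀ (mem_ball_self hR) R hR le_rfl
    have h2 : 0 ≤ ∫ y in ball x₀ R, ‖D y‖ := integral_nonneg fun y => norm_nonneg _
    have h3 : 0 < R ^ ((n : ℝ) - 1 + α) := Real.rpow_pos_of_pos hR _
    exact nonneg_of_mul_nonneg_left (h2.trans h1) h3
  -- the kernels
  have hd1 : ∀ i, ContDiff ℝ ∞ (dd i ζ) ∧ ∀ x, 1 ≤ ‖x‖ → dd i ζ x = 0 := fun i =>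
    have h := (hDIL n ζ 1 one_pos hk.sζ hk.zζ).2.2.2.2 i
    ⟨h.1, h.2.1⟩
  have hd2 : ∀ i j, ContDiff ℝ ∞ (dd j (dd i ζ)) ∧ ∀ x, 1 ≤ ‖x‖ → dd j (dd i ζ) x = 0 :=
    fun i j =>
    have h := (hDIL n (dd i ζ) 1 one_pos (hd1 i).1 (hd1 i).2).2.2.2.2 j
    ⟨h.1, h.2.1⟩
  have hd3 : ∀ i, ContDiff ℝ ∞ (dd i φ) ∧ ∀ x, 1 ≤ ‖x‖ → dd i φ x = 0 := fun i =>
    have h := (hDIL n φ 1 one_pos hk.sφ hk.zφ).2.2.2.2 i
    ⟨h.1, h.2.1⟩
  obtain ⟨M1, hM10, hM1⟩ := fam_bdd (fun i => (hd1 i).1.continuous) fun i => (hd1 i).2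
  obtain ⟨M2, hM20, hM2⟩ := fam_bdd (ι := Fin n × Fin n)
    (k := fun p => dd p.2 (dd p.1 ζ)) (fun p => (hd2 p.1 p.2).1.continuous) fun p =>
      (hd2 p.1 p.2).2
  obtain ⟨M3, hM30, hM3⟩ := fam_bdd (fun i => (hd3 i).1.continuous) fun i => (hd3 i).2
  obtain ⟨M4, hM40, hM4⟩ := ker_bdd hk.sφ.continuous hk.zφ
  -- the scales
  obtain ⟨t, htd⟩ : ∃ t : ℕ → ℝ, t = fun k => R / 2 ^ k := ⟨_, rfl⟩
  have ht0 : ∀ k, 0 < t k := fun k => by rw [htd]; positivity
  have htR : ∀ k, t k ≤ R := fun k => by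
    rw [htd]
    exact div_le_self hR.le (one_le_pow₀ (by norm_num))
  have ht00 : t 0 = R := by rw [htd]; simp
  have htS : ∀ k, t (k + 1) = t k / 2 := fun k => by
    rw [htd]
    show R / 2 ^ (k + 1) = R / 2 ^ k / 2
    rw [pow_succ]
    field_simp
  have htl : Tendsto t atTop (𝓝[>] 0) := by
    refine tendsto_nhdsWithin_iff.2 ⟨?_, Eventually.of_forall ht0⟩
    have h1 : Tendsto (fun k : ℕ => R * (1 / 2 : ℝ) ^ k) atTop (𝓝 (R * 0)) :=
      (tendsto_pow_atTop_nhds_zero_of_lt_one (by norm_num) (by norm_num)).const_mul R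
    rw [mul_zero] at h1
    refine h1.congr fun k => ?_
    rw [htd, one_div, inv_pow]
    exact (div_eq_mul_inv _ _).symm
  have hDi : ∀ i, Integrable ((ball x₀ (2 * R)).indicator fun y => D y i) := fun i =>
    int_comp measurableSet_ball hD i
  -- the summands
  obtain ⟨w, hwd⟩ : ∃ w : ℕ → E n → ℝ, w = fun k x => t k * ∑ i : Fin n,
      cv (dil (dd i ζ) (t k)) ((ball x₀ (2 * R)).indicator fun y => D y i) x := ⟨_, rfl⟩
  have hcd : ∀ k i, ContDiff ℝ ∞ (cv (dil (dd i ζ) (t k))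
      ((ball x₀ (2 * R)).indicator fun y => D y i)) := fun k i =>
    (hDCV n (dd i ζ) _ (t k) (ht0 k) (hd1 i).1 (hd1 i).2 (hDi i)).1
  have hwc : ∀ k, ContDiff ℝ ∞ (w k) := by
    intro k
    rw [hwd]
    exact contDiff_const.mul (ContDiff.sum fun i _ => hcd k i)
  obtain ⟨A, hA⟩ : ∃ A : ℝ, A = n * ((M1 + M2) * C) := ⟨_, rfl⟩
  have hA0 : 0 ≤ A := by rw [hA]; positivity
  have hw0 : ∀ k, ∀ x ∈ ball x₀ R, |w k x| ≤ A * (R / 2 ^ k) ^ α := by
    intro k x hx
    have h1 : ∀ i : Fin n, |cv (dil (dd i ζ) (t k))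
        ((ball x₀ (2 * R)).indicator fun y => D y i) x| ≤ (M1 + M2) * C * t k ^ (α - 1) := by
      intro i
      refine (cv_est hDCV hD hdec (hd1 i).1 (hd1 i).2 (hM1 i) i hx (ht0 k) (htR k)).trans ?_
      have h2 : 0 ≤ t k ^ (α - 1) := Real.rpow_nonneg (ht0 k).le _
      gcongr
      linarith
    have h3 : t k * t k ^ (α - 1) = t k ^ α := by
      rw [Real.rpow_sub_one (ht0 k).ne']
      have := (ht0 k).ne'
      field_simp
    have h4 : (R / 2 ^ k) ^ α = t k ^ α := by rw [htd]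
    rw [hwd, h4, hA]
    show |t k * ∑ i : Fin n, _| ≤ _
    rw [abs_mul, abs_of_pos (ht0 k)]
    calc t k * |∑ i : Fin n, cv (dil (dd i ζ) (t k))
          ((ball x₀ (2 * R)).indicator fun y => D y i) x|
        ≤ t k * ∑ _i : Fin n, (M1 + M2) * C * t k ^ (α - 1) := by
          refine mul_le_mul_of_nonneg_left ?_ (ht0 k).le
          exact (Finset.abs_sum_le_sum_abs _ _).trans (Finset.sum_le_sum fun i _ => h1 i)
      _ = n * ((M1 + M2) * C) * (t k * t k ^ (α - 1)) := by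
          rw [Finset.sum_const, Finset.card_univ, Fintype.card_fin, nsmul_eq_mul]
          ring
      _ = _ := by rw [h3]
  have hw1 : ∀ k, ∀ x ∈ ball x₀ R, ∀ j, |dd j (w k) x| ≤ A * (R / 2 ^ k) ^ (α - 1) := by
    intro k x hx j
    have h4 : (R / 2 ^ k) ^ (α - 1) = t k ^ (α - 1) := by rw [htd]
    have h5 : ∀ i : Fin n, DifferentiableAt ℝ (cv (dil (dd i ζ) (t k))
        ((ball x₀ (2 * R)).indicator fun y => D y i)) x := fun i =>
      ((hcd k i).differentiable (by simp)).differentiableAt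
    have h6 : dd j (w k) x = ∑ i : Fin n, cv (dil (dd j (dd i ζ)) (t k))
        ((ball x₀ (2 * R)).indicator fun y => D y i) x := by
      have h7 : ∀ i : Fin n, t k * dd j (cv (dil (dd i ζ) (t k))
          ((ball x₀ (2 * R)).indicator fun y => D y i)) x = cv (dil (dd j (dd i ζ)) (t k))
          ((ball x₀ (2 * R)).indicator fun y => D y i) x := by
        intro i
        rw [(hDCV n (dd i ζ) _ (t k) (ht0 k) (hd1 i).1 (hd1 i).2 (hDi i)).2.1 j x, ← mul_assoc,
          mul_inv_cancel₀ (ht0 k).ne', one_mul]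
      rw [← Finset.sum_congr rfl fun i _ => h7 i, ← Finset.mul_sum]
      rw [hwd]
      unfold dd
      show fderiv ℝ (fun x => t k * ∑ i : Fin n, cv (dil (fun x => fderiv ℝ ζ x (bv i)) (t k))
        ((ball x₀ (2 * R)).indicator fun y => D y i) x) x (bv j) = _
      have h8 : DifferentiableAt ℝ (fun x => ∑ i : Fin n, cv (dil (dd i ζ) (t k))
        ((ball x₀ (2 * R)).indicator fun y => D y i) x) x :=
        DifferentiableAt.fun_sum fun i _ => h5 i
      have h9 := fderiv_const_mul h8 (t k)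
      have h10 := fderiv_fun_sum (u := Finset.univ) (fun (i : Fin n) _ => h5 i)
      rw [h10] at h9
      have h11 := congrArg (fun L => L (bv j)) h9
      refine h11.trans ?_
      rw [FunLike.coe_smul, Pi.smul_apply, smul_eq_mul]
      congr 1
      rw [FunLike.coe_sum, Finset.sum_apply]
      rfl
    rw [h6, h4, hA]
    calc |∑ i : Fin n, cv (dil (dd j (dd i ζ)) (t k))
          ((ball x₀ (2 * R)).indicator fun y => D y i) x|
        ≤ ∑ _i : Fin n, (M1 + M2) * C * t k ^ (α - 1) := by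
          refine (Finset.abs_sum_le_sum_abs _ _).trans (Finset.sum_le_sum fun i _ => ?_)
          refine (cv_est hDCV hD hdec (hd2 i j).1 (hd2 i j).2 (hM2 (i, j)) i hx (ht0 k)
            (htR k)).trans ?_
          have h2 : 0 ≤ t k ^ (α - 1) := Real.rpow_nonneg (ht0 k).le _
          gcongr
          linarith
      _ = n * ((M1 + M2) * C) * t k ^ (α - 1) := by
          rw [Finset.sum_const, Finset.card_univ, Fintype.card_fin, nsmul_eq_mul]
          ring
  obtain ⟨hsum, C1, hC1⟩ := hSM0 n α θ A R x₀ w hθ hθα (hθα.le.trans hα1) hR hA0 hwc hw0 hw1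
  -- the smooth part
  have hvi : Integrable ((ball x₀ (2 * R)).indicator v) := by
    rw [integrable_indicator_iff measurableSet_ball]
    exact hv
  obtain ⟨b, hb⟩ : ∃ b : E n → ℝ, b = cv (dil φ R) ((ball x₀ (2 * R)).indicator v) := ⟨_, rfl⟩
  obtain ⟨I, hI⟩ : ∃ I : ℝ, I = ∫ y, |(ball x₀ (2 * R)).indicator v y| := ⟨_, rfl⟩
  have hI0 : 0 ≤ I := by rw [hI]; exact integral_nonneg fun y => abs_nonneg _
  have hIb : ∀ x, ∫ y in ball x R, |(ball x₀ (2 * R)).indicator v y| ≤ I := by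
    intro x
    rw [hI]
    exact setIntegral_le_integral hvi.abs (Eventually.of_forall fun y => abs_nonneg _)
  have hbc : ContDiff ℝ ∞ b := by
    rw [hb]
    exact (hDCV n φ _ R hR hk.sφ hk.zφ hvi).1
  have hb0 : ∀ x, |b x| ≤ M4 * (R ^ n)⁻¹ * I := by
    intro x
    rw [hb]
    refine ((hDCV n φ _ R hR hk.sφ hk.zφ hvi).2.2 M4 x hM4).trans ?_
    exact mul_le_mul_of_nonneg_left (hIb x) (by positivity)
  have hb1 : ∀ x j, |dd j b x| ≤ R⁻¹ * (M3 * (R ^ n)⁻¹ * I) := by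
    intro x j
    rw [hb, (hDCV n φ _ R hR hk.sφ hk.zφ hvi).2.1 j x, abs_mul, abs_of_pos (inv_pos.2 hR)]
    refine mul_le_mul_of_nonneg_left ?_ (by positivity)
    refine ((hDCV n (dd j φ) _ R hR (hd3 j).1 (hd3 j).2 hvi).2.2 M3 x (hM3 j)).trans ?_
    exact mul_le_mul_of_nonneg_left (hIb x) (by positivity)
  obtain ⟨C2, hC2⟩ : ∃ C : ℝ, ∀ x ∈ ball x₀ R, ∀ y ∈ ball x₀ R,
      |b x - b y| ≤ C * ‖x - y‖ ^ θ := by
    obtain ⟨B0, hB0⟩ : ∃ B0 : ℝ, B0 = M4 * (R ^ n)⁻¹ * I := ⟨_, rfl⟩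
    obtain ⟨B1, hB1⟩ : ∃ B1 : ℝ, B1 = R⁻¹ * (M3 * (R ^ n)⁻¹ * I) := ⟨_, rfl⟩
    have hB00 : 0 ≤ B0 := by rw [hB0]; positivity
    have hB10 : 0 ≤ B1 := by rw [hB1]; positivity
    have hRa : 0 < R ^ α := Real.rpow_pos_of_pos hR _
    have hRb : 0 < R ^ (α - 1) := Real.rpow_pos_of_pos hR _
    obtain ⟨A', hA'⟩ : ∃ A' : ℝ, A' = B0 / R ^ α + B1 / R ^ (α - 1) := ⟨_, rfl⟩
    have hA'0 : 0 ≤ A' := by rw [hA']; positivity
    obtain ⟨w', hw'⟩ : ∃ w' : ℕ → E n → ℝ, w' = fun k => if k = 0 then b else fun _ => 0 :=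
      ⟨_, rfl⟩
    have hz : w' 0 = b := by rw [hw']; simp
    have hs : ∀ k, k ≠ 0 → w' k = fun _ => 0 := fun k hk0 => by rw [hw']; simp [hk0]
    obtain ⟨-, C2, hC2⟩ := hSM0 n α θ A' R x₀ w' hθ hθα (hθα.le.trans hα1) hR hA'0
      (by
        intro k
        by_cases h : k = 0
        · rw [h, hz]
          exact hbc
        · rw [hs k h]
          exact contDiff_const)
      (by
        intro k x hx
        by_cases h : k = 0
        · rw [h, hz, pow_zero, div_one]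
          refine (hb0 x).trans ?_
          rw [← hB0, hA', add_mul, div_mul_cancel₀ _ hRa.ne']
          have : 0 ≤ B1 / R ^ (α - 1) * R ^ α := by positivity
          linarith
        · rw [hs k h, abs_zero]
          positivity)
      (by
        intro k x hx j
        by_cases h : k = 0
        · rw [h, hz, pow_zero, div_one]
          refine (hb1 x j).trans ?_
          rw [← hB1, hA', add_mul, div_mul_cancel₀ _ hRb.ne']
          have : 0 ≤ B0 / R ^ α * R ^ (α - 1) := by positivity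
          linarith
        · rw [hs k h]
          have : dd j (fun _ : E n => (0 : ℝ)) x = 0 := by
            unfold dd
            simp
          rw [this, abs_zero]
          positivity)
    refine ⟨C2, fun x hx y hy => ?_⟩
    have h1 : ∀ x, ∑' k, w' k x = b x := by
      intro x
      rw [tsum_eq_single 0 fun k hk0 => by rw [hs k hk0], hz]
    have h2 := hC2 x hx y hy
    rwa [h1, h1] at h2
  refine ⟨fun x => b x + ∑' k, w k x, ?_, C2 + C1, ?_⟩
  · have h1 := (hLM n φ ζ hk v (ball x₀ (2 * R)) isOpen_ball hv).1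
    have h2 : ball x₀ R ⊆ ball x₀ (2 * R) := ball_subset_ball (by linarith)
    filter_upwards [ae_mono (Measure.restrict_mono h2 le_rfl) h1,
      ae_restrict_mem measurableSet_ball] with x hx hxb
    have hlim : Tendsto (fun K => cv (dil φ (t K)) v x) atTop (𝓝 (v x)) := hx.comp htl
    have htel : ∀ K, cv (dil φ (t K)) v x = b x + ∑ k ∈ Finset.range K, w k x := by
      intro K
      induction K with
      | zero =>
        rw [Finset.sum_range_zero, add_zero, ht00, hb]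
        exact hTRC n φ v x₀ R R hR le_rfl hk.zφ x hxb
      | succ K ih =>
        rw [Finset.sum_range_succ, ← add_assoc, ← ih, htS,
          hRPG n φ ζ hk v D x₀ R hv hD hW x hxb (t K) (ht0 K) (htR K)]
        congr 1
        rw [hwd]
        show _ = t K * ∑ i : Fin n, _
        congr 1
        refine Finset.sum_congr rfl fun i _ => ?_
        exact hTRC n (dd i ζ) (fun y => D y i) x₀ R (t K) (ht0 K) (htR K) (hd1 i).2 x hxb
    have hlim2 : Tendsto (fun K => cv (dil φ (t K)) v x) atTop (𝓝 (b x + ∑' k, w k x)) := by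
      have h3 := (hsum x hxb).hasSum.tendsto_sum_nat.const_add (b x)
      exact h3.congr fun K => (htel K).symm
    exact tendsto_nhds_unique hlim2 hlim
  · intro x hx y hy
    have h1 := hC1 x hx y hy
    have h2 := hC2 x hx y hy
    calc |b x + ∑' k, w k x - (b y + ∑' k, w k y)|
        = |(b x - b y) + ((∑' k, w k x) - ∑' k, w k y)| := by
          congr 1
          ring
      _ ≤ |b x - b y| + |(∑' k, w k x) - ∑' k, w k y| := abs_add_le _ _
      _ ≤ C2 * ‖x - y‖ ^ θ + C1 * ‖x - y‖ ^ θ := add_le_add h2 h1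
      _ = (C2 + C1) * ‖x - y‖ ^ θ := by ring

end

end Pool.Agent.H59.RG6
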